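import Pool.Agent.Helper90.NBR.Inc

/-! Independence of the label of a window and of the deep digits, given the visible digits of an earlier window. -/

set_option autoImplicit false

namespace Pool.Agent.Helper90.NBR

open Finset Filter Topology Pool.Agent.Helper69.RK Pool.Agent.Helper31.EC Pool.Agent.Helper82.TP
open Pool.Agent.Helper79.NF Pool.Agent.Helper31.NSB Pool.Agent.Helper90.BLD

noncomputable section

section
variable {L : Type*} [PM L]

/-- the count -/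
theorem ind_lat {K K' P Pd X Xd B : L} (hK : K ≤ K') (hPB : P ≤ K' ⊔ B) (hPd : Pd ≤ K' ⊔ P) (hXd : Xd ≤ X)
    (hX : I X (K' ⊔ B) ⊥ = 0) (hP : h P (K ⊔ (Pd ⊔ Xd)) ≤ h P (K' ⊔ Pd)) :
    I K' (P ⊔ X) (K ⊔ (Pd ⊔ Xd)) = 0 := by
  refine le_antisymm ?_ (I_nonneg _ _ _)
  rw [I_eq', h_chain P X (K ⊔ (Pd ⊔ Xd)), h_chain P X (K' ⊔ (K ⊔ (Pd ⊔ Xd)))]
  have e1 : h X (P ⊔ (K ⊔ (Pd ⊔ Xd))) ≤ h X Xd := h_anti ((le_sup_right.trans le_sup_right).trans le_sup_right)
  -- `x` is independent of everything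
  have i1 : I X (K' ⊔ P ⊔ Pd) Xd = 0 := by
    have a1 : I X (K' ⊔ B) (Xd ⊔ ⊥) ≤ I X (K' ⊔ B) ⊥ := I_cond_le hXd
    rw [hX, sup_bot_eq] at a1
    have a2 := le_antisymm a1 (I_nonneg _ _ _)
    have a3 : K' ⊔ P ≤ K' ⊔ B := sup_le le_sup_left hPB
    exact I_zero_mono a2 le_sup_left ((sup_le a3 (hPd.trans a3)).trans le_sup_left)
  have e2 : h X (P ⊔ (K' ⊔ (K ⊔ (Pd ⊔ Xd)))) = h X Xd := by
    rw [I_zero_iff_h] at i1
    rw [← i1]
    apply le_antisymm
    · apply h_anti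
      refine sup_le (sup_le (sup_le ?_ ?_) ?_) ?_
      · exact le_sup_left.trans le_sup_right
      · exact le_sup_left
      · exact ((le_sup_left.trans le_sup_right).trans le_sup_right).trans le_sup_right
      · exact ((le_sup_right.trans le_sup_right).trans le_sup_right).trans le_sup_right
    · apply h_anti
      refine sup_le ?_ (sup_le ?_ (sup_le ?_ (sup_le ?_ ?_)))
      · exact (le_sup_right.trans le_sup_left).trans le_sup_left
      · exact (le_sup_left.trans le_sup_left).trans le_sup_left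
      · exact hK.trans ((le_sup_left.trans le_sup_left).trans le_sup_left)
      · exact le_sup_right.trans le_sup_left
      · exact le_sup_right
  have e3 : h P (K' ⊔ (K ⊔ (Pd ⊔ Xd))) = h P (K' ⊔ Pd) := by
    have a0 : I X (K' ⊔ Pd ⊔ P) ⊥ = 0 := by
      have a3 : K' ⊔ P ≤ K' ⊔ B := sup_le le_sup_left hPB
      exact I_zero_mono hX le_sup_left ((sup_le (sup_le le_sup_left (hPd.trans a3)) hPB).trans le_sup_left)
    have a1 := (I_decomp a0).2
    rw [sup_bot_eq] at a1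
    have a2 : I Xd P (K' ⊔ Pd) = 0 := I_zero_mono a1 (hXd.trans le_sup_left) le_sup_left
    rw [I_zero_iff_h'] at a2
    rw [← a2]
    congr 1
    apply le_antisymm
    · refine sup_le (le_sup_left.trans le_sup_right) (sup_le (hK.trans (le_sup_left.trans le_sup_right))
        (sup_le (le_sup_right.trans le_sup_right) le_sup_left))
    · exact sup_le ((le_sup_right.trans le_sup_right).trans le_sup_right)
        (sup_le le_sup_left ((le_sup_left.trans le_sup_right).trans le_sup_right))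
  rw [e2, e3]
  linarith

end

open Sp QS

variable {S : Sp}

variable {H : RD S} {f : FR S} {w1 w : ℝ} {Sc : Set ℝ} (cc : C0 H f w1 w Sc)

include cc

/-- the base point is full over the label -/
theorem fullq {s : ℝ} (hs : s ∈ Sc) (h2 : w1 * s ≤ 1) : 2 - 2 * s ≤ h H.q (H.κ s) := by
  have e1 := full0 cc hs h2
  have e2 : h H.M (H.κ s) = h H.q (H.κ s) + h (dg H.R 1) (H.q ⊔ H.κ s) := h_chain H.q (dg H.R 1) (H.κ s)
  have e3 : h (dg H.R 1) (H.q ⊔ H.κ s) ≤ h (dg (Rh H f s) 1) (H.q ⊔ H.κ s) := by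
    apply h_mono'
    have e4 : H.R = Rh H f s + (f.r0 s + f.rt s * H.t + f.ry s * H.y) := by
      unfold Rh
      ring
    conv_lhs => rw [e4]
    refine add_le1 le_sup_left (add_le1 (add_le1 ((r0K cc hs).trans (le_sup_right.trans le_sup_right))
      (mul_le1 ((rtK cc hs).trans (le_sup_right.trans le_sup_right)) (le_sup_left.trans (le_sup_left.trans le_sup_right))))
      (mul_le1 ((ryK cc hs).trans (le_sup_right.trans le_sup_right)) (le_sup_right.trans (le_sup_left.trans le_sup_right))))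
  have e5 : h (dg (Rh H f s) 1) (H.q ⊔ H.κ s) ≤ 1 - w1 * s := (h_le_H _ _).trans (H_dg_of_mem h2 (cc.frR s hs))
  linarith

/-- digits of `(t, y)` over the label -/
theorem h_ty {s D : ℝ} (hs : s ∈ Sc) (h1 : s ≤ 1) (hD : s ≤ D) : h (dg H.t D ⊔ dg H.y D) (H.κ s) ≤ 2 * (D - s) := by
  refine (h_sup_le _ _ _).trans ?_
  have e1 : h (dg H.t D) (H.κ s) ≤ D - s := (h_anti (tsK cc hs h1)).trans (h_dg_dg H.t hD)
  have e2 : h (dg H.y D) (H.κ s) ≤ D - s := (h_anti (ysK cc hs h1)).trans (h_dg_dg H.y hD)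
  linarith

/-- independence, base point -/
theorem ind_q {s s' D : ℝ} (hs : s ∈ Sc) (hs' : s' ∈ Sc) (hss : s ≤ s') (hD : s' ≤ s + D) (h2 : w1 * s' ≤ 1)
    (h4 : s + D ≤ 1) (hD1 : D ≤ 1) :
    I (H.κ s') (H.q ⊔ dg H.x 1) (H.κ s ⊔ (dg H.t (s + D) ⊔ dg H.y (s + D) ⊔ dg H.x D)) = 0 := by
  have hq : dg H.t (s + D) ⊔ dg H.y (s + D) ≤ H.q := sup_le_sup (dg_mono _ h4) (dg_mono _ h4)
  apply ind_lat (P := H.q) (B := H.B) (cc.mono s hs s' hs' hss) (le_trans (le_sup_left.trans le_sup_left) le_sup_right)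
    (hq.trans le_sup_right) (dg_mono _ hD1) (cc.T1 s' hs')
  have e1 : h H.q (H.κ s ⊔ (dg H.t (s + D) ⊔ dg H.y (s + D) ⊔ dg H.x D)) ≤ 2 - 2 * (s + D) := by
    refine (h_sup_le _ _ _).trans ?_
    have a1 : h (dg H.t 1) (H.κ s ⊔ (dg H.t (s + D) ⊔ dg H.y (s + D) ⊔ dg H.x D)) ≤ 1 - (s + D) :=
      (h_anti ((le_sup_left.trans le_sup_left).trans le_sup_right)).trans (h_dg_dg H.t h4)
    have a2 : h (dg H.y 1) (H.κ s ⊔ (dg H.t (s + D) ⊔ dg H.y (s + D) ⊔ dg H.x D)) ≤ 1 - (s + D) :=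
      (h_anti ((le_sup_right.trans le_sup_left).trans le_sup_right)).trans (h_dg_dg H.y h4)
    linarith
  have e2 := fullq cc hs' h2
  have e3 := h_ty cc (D := s + D) hs' (le1 cc hs' h2) hD
  have e4 := h_chain (dg H.t (s + D) ⊔ dg H.y (s + D)) H.q (H.κ s')
  rw [sup_eq_right.mpr hq, sup_comm (dg H.t (s + D) ⊔ dg H.y (s + D)) (H.κ s')] at e4
  linarith

/-- digits of the relative coordinate over the label of a later window -/
theorem h_Rh {s s' D : ℝ} (hs : s ∈ Sc) (hs' : s' ∈ Sc) (hss : s ≤ s') (h2 : w1 * s' ≤ 1) (hD0 : 0 ≤ D)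
    (hD : w1 * s' ≤ w1 * s + D) (h4 : w1 * s + D ≤ 1) :
    h (dg (Rh H f s) (w1 * s + D)) ((dg H.t (s + D) ⊔ dg H.y (s + D)) ⊔ H.κ s') ≤ w1 * s + D - w1 * s' := by
  have hw1 := cc.hw1
  have n0 := cc.nn s hs
  have hκ := cc.mono s hs s' hs' hss
  have hsD : s + D ≤ 1 := le_trans (by nlinarith) h4
  have e1 : Rh H f s = Rh H f s' + ((f.r0 s' - f.r0 s) + (f.rt s' - f.rt s) * H.t + (f.ry s' - f.ry s) * H.y) := by
    unfold Rh
    ring
  obtain ⟨m1, m2⟩ := inc_R cc hs hs' hss h2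
  have hb : (w1 - 1) * s ≤ 1 := by nlinarith
  have e0 : w1 * s + D = (w1 - 1) * s + (s + D) := by ring
  have k1 : ∀ u v : QS S, u ∈ Id S ((w1 - 1) * s) → dg u 1 ≤ H.κ s' →
      dg (u * v) (w1 * s + D) ≤ dg v (s + D) ⊔ H.κ s' := by
    intro u v hu hu1
    have a1 := dg_mul_small v u (a := (w1 - 1) * s) (b := s + D) (by linarith) hsD hb hu
    rw [← e0, mul_comm v u] at a1
    exact a1.trans (sup_le le_sup_left (((dg_mono _ h4).trans hu1).trans le_sup_right))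
  have e2 : dg (Rh H f s) (w1 * s + D) ≤ dg (Rh H f s') (w1 * s + D) ⊔
      ((dg H.t (s + D) ⊔ dg H.y (s + D)) ⊔ H.κ s') := by
    rw [e1]
    refine (dg_add_le _ _ h4).trans (sup_le le_sup_left ?_)
    refine dg_add_le' _ _ h4 (dg_add_le' _ _ h4 ?_ ?_) ?_
    · exact ((dg_mono _ h4).trans (sub_le1 (r0K cc hs') ((r0K cc hs).trans hκ))).trans
        (le_sup_right.trans le_sup_right)
    · refine (k1 _ _ m1 (sub_le1 (rtK cc hs') ((rtK cc hs).trans hκ))).trans (le_trans ?_ le_sup_right)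
      exact sup_le_sup_right le_sup_left _
    · refine (k1 _ _ m2 (sub_le1 (ryK cc hs') ((ryK cc hs).trans hκ))).trans (le_trans ?_ le_sup_right)
      exact sup_le_sup_right le_sup_right _
  refine (h_mono' e2).trans ((h_le_H _ _).trans ?_)
  have e3 := h_dg_dg (Rh H f s') hD
  have e4 : dg (Rh H f s') (w1 * s') = ⊥ := dg_of_mem_Id (cc.frR s' hs') le_rfl h2
  rwa [e4, h_bot] at e3

/-- the count for the point of the hyperplane -/
theorem cnt_M {s s' D : ℝ} (hs : s ∈ Sc) (hs' : s' ∈ Sc) (hss : s ≤ s') (h2 : w1 * s' ≤ 1) (hD0 : 0 ≤ D)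
    (hD : w1 * s' ≤ w1 * s + D) (h4 : w1 * s + D ≤ 1) {C : S.L} (hC1 : H.κ s ≤ C)
    (hC2 : dg H.t (s + D) ⊔ dg H.y (s + D) ⊔ dg (Rh H f s) (w1 * s + D) ≤ C) :
    h H.M C ≤ h H.M (H.κ s' ⊔ (dg H.t (s + D) ⊔ dg H.y (s + D) ⊔ dg (Rh H f s) (w1 * s + D))) := by
  have hw1 := cc.hw1
  have n0 := cc.nn s hs
  have hsD : s + D ≤ 1 := le_trans (by nlinarith) h4
  have hsD' : s' ≤ s + D := by
    have : w1 * s' ≤ w1 * (s + D) := by nlinarith
    exact le_of_mul_le_mul_left this (by linarith)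
  -- upper bound
  have e1 : h H.M C ≤ 3 - 2 * (s + D) - (w1 * s + D) := by
    have a0 := h_chain H.q (dg H.R 1) C
    have a1 : h (dg H.t 1) C ≤ 1 - (s + D) :=
      (h_anti ((le_sup_left.trans le_sup_left).trans hC2)).trans (h_dg_dg H.t hsD)
    have a2 : h (dg H.y 1) C ≤ 1 - (s + D) :=
      (h_anti ((le_sup_right.trans le_sup_left).trans hC2)).trans (h_dg_dg H.y hsD)
    have a3 : h H.q C ≤ (1 - (s + D)) + (1 - (s + D)) := (h_sup_le _ _ _).trans (add_le_add a1 a2)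
    have a4 : h (dg H.R 1) (H.q ⊔ C) ≤ 1 - (w1 * s + D) := by
      refine le_trans (h_mono' (A' := dg (Rh H f s) 1) ?_) ((h_anti ((le_sup_right.trans hC2).trans
        le_sup_right)).trans (h_dg_dg (Rh H f s) h4))
      have e4 : H.R = Rh H f s + (f.r0 s + f.rt s * H.t + f.ry s * H.y) := by
        unfold Rh
        ring
      conv_lhs => rw [e4]
      have k0 : H.κ s ≤ dg (Rh H f s) 1 ⊔ (H.q ⊔ C) := (hC1.trans le_sup_right).trans le_sup_right
      refine add_le1 le_sup_left (add_le1 (add_le1 ((r0K cc hs).trans k0)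
        (mul_le1 ((rtK cc hs).trans k0) (le_sup_left.trans (le_sup_left.trans le_sup_right))))
        (mul_le1 ((ryK cc hs).trans k0) (le_sup_right.trans (le_sup_left.trans le_sup_right))))
    have a5 : h H.M C = h (H.q ⊔ dg H.R 1) C := rfl
    linarith
  -- lower bound
  have e2 := full0 cc hs' h2
  have e3 := h_ty cc (D := s + D) hs' (le1 cc hs' h2) hsD'
  have e4 := h_Rh cc hs hs' hss h2 hD0 hD h4
  have e5 := h_chain (dg H.t (s + D) ⊔ dg H.y (s + D)) (dg (Rh H f s) (w1 * s + D)) (H.κ s')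
  have e6 := h_chain (dg H.t (s + D) ⊔ dg H.y (s + D) ⊔ dg (Rh H f s) (w1 * s + D)) H.M (H.κ s')
  have e7 : h H.M (H.κ s') ≤ h (dg H.t (s + D) ⊔ dg H.y (s + D) ⊔ dg (Rh H f s) (w1 * s + D) ⊔ H.M) (H.κ s') :=
    h_mono le_sup_right
  rw [sup_comm (dg H.t (s + D) ⊔ dg H.y (s + D) ⊔ dg (Rh H f s) (w1 * s + D)) (H.κ s')] at e6
  linarith

/-- box digits are functions of the label and of the point -/
theorem boxle {s D : ℝ} (hs : s ∈ Sc) (h4 : w1 * s + D ≤ 1) {X : S.L} (hX1 : H.κ s ≤ X)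
    (hX2 : H.M ≤ X) : dg H.t (s + D) ⊔ dg H.y (s + D) ⊔ dg (Rh H f s) (w1 * s + D) ≤ X := by
  have hw1 := cc.hw1
  have n0 := cc.nn s hs
  have hsD : s + D ≤ 1 := le_trans (by nlinarith) h4
  refine sup_le (sup_le ((dg_mono _ hsD).trans ((le_sup_left.trans le_sup_left).trans hX2))
    ((dg_mono _ hsD).trans ((le_sup_right.trans le_sup_left).trans hX2))) ((dg_mono _ h4).trans ?_)
  unfold Rh
  exact sub_le1 (le_sup_right.trans hX2) (add_le1 (add_le1 ((r0K cc hs).trans hX1)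
    (mul_le1 ((rtK cc hs).trans hX1) ((le_sup_left.trans le_sup_left).trans hX2)))
    (mul_le1 ((ryK cc hs).trans hX1) ((le_sup_right.trans le_sup_left).trans hX2)))

/-- independence, point of the hyperplane -/
theorem ind_M {s s' D : ℝ} (hs : s ∈ Sc) (hs' : s' ∈ Sc) (hss : s ≤ s') (h2 : w1 * s' ≤ 1) (hD0 : 0 ≤ D)
    (hD : w1 * s' ≤ w1 * s + D) (h4 : w1 * s + D ≤ 1) :
    I (H.κ s') (H.M ⊔ dg H.x 1)
      (H.κ s ⊔ (dg H.t (s + D) ⊔ dg H.y (s + D) ⊔ dg (Rh H f s) (w1 * s + D) ⊔ dg H.x D)) = 0 := by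
  have hw1 := cc.hw1
  have n0 := cc.nn s hs
  have hD1 : D ≤ 1 := by nlinarith
  have hκ := cc.mono s hs s' hs' hss
  exact ind_lat (P := H.M) (B := H.B) hκ (le_trans le_sup_left le_sup_right)
    (boxle cc hs h4 (hκ.trans le_sup_left) le_sup_right) (dg_mono _ hD1) (cc.T1 s' hs')
    (cnt_M cc hs hs' hss h2 hD0 hD h4 le_sup_left (le_sup_left.trans le_sup_right))

/-- independence, point of the hyperplane, without the direction -/
theorem ind_M0 {s s' D : ℝ} (hs : s ∈ Sc) (hs' : s' ∈ Sc) (hss : s ≤ s') (h2 : w1 * s' ≤ 1) (hD0 : 0 ≤ D)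
    (hD : w1 * s' ≤ w1 * s + D) (h4 : w1 * s + D ≤ 1) :
    I (H.κ s') H.M (H.κ s ⊔ (dg H.t (s + D) ⊔ dg H.y (s + D) ⊔ dg (Rh H f s) (w1 * s + D))) = 0 := by
  have hκ := cc.mono s hs s' hs' hss
  have e1 := ind_lat (P := H.M) (B := H.B) (X := ⊥) (Xd := ⊥) hκ (le_trans le_sup_left le_sup_right)
    (boxle cc hs h4 (hκ.trans le_sup_left) le_sup_right) le_rfl (I_zero_of_le_left bot_le)
    (cnt_M cc hs hs' hss h2 hD0 hD h4 le_sup_left (le_sup_left.trans le_sup_right))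
  rwa [sup_bot_eq, sup_bot_eq] at e1

end

end Pool.Agent.Helper90.NBR
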