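import Pool.Agent.Helper90.NBR.Vel

/-! Increments of the frames between two windows. -/

set_option autoImplicit false

namespace Pool.Agent.Helper90.NBR

open Finset Filter Topology Pool.Agent.Helper69.RK Pool.Agent.Helper31.EC Pool.Agent.Helper82.TP
open Pool.Agent.Helper79.NF Pool.Agent.Helper31.NSB Pool.Agent.Helper90.BLD

noncomputable section

open Sp QS

variable {S : Sp} {H : RD S} {f : FR S} {w1 w : ℝ} {Sc : Set ℝ} (cc : C0 H f w1 w Sc)

include cc

/-- fullness in the space itself -/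
theorem full0 {s : ℝ} (hs : s ∈ Sc) (h2 : w1 * s ≤ 1) : 3 - (2 + w1) * s ≤ h H.M (H.κ s) := by
  have e := cc.full s hs h2 S (Pj.id S) (fun _ _ => True) (ul_pr_typ_pos _ Typ_true)
  rwa [Pj.id_map, Pj.id_map, h_restL_typ _ Typ_true] at e

/-- bounds on the windows -/
theorem le1 {s : ℝ} (hs : s ∈ Sc) (h2 : w1 * s ≤ 1) : s ≤ 1 :=
  (le_mul_of_one_le_left (cc.nn s hs) cc.hw1).trans h2

/-- increments of the slopes of `R` -/
theorem inc_R {s s' : ℝ} (hs : s ∈ Sc) (hs' : s' ∈ Sc) (hss : s ≤ s') (h2 : w1 * s' ≤ 1) :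
    f.rt s' - f.rt s ∈ Id S ((w1 - 1) * s) ∧ f.ry s' - f.ry s ∈ Id S ((w1 - 1) * s) := by
  have hw := cc.hw1
  have n0 := cc.nn s hs
  have h2s : w1 * s ≤ 1 := (mul_le_mul_of_nonneg_left hss (by linarith)).trans h2
  have m1 := Fh_mem cc hs (le1 cc hs h2s) h2s
  have m2 := Id_anti (mul_le_mul_of_nonneg_left hss (sub_nonneg.mpr hw)) (Fh_mem cc hs' (le1 cc hs' h2) h2)
  have m3 := (Id S ((w1 - 1) * s)).sub_mem m1 m2
  have e1 : Fh H f s - Fh H f s' = (f.rt s' - f.rt s) + (f.ry s' - f.ry s) * H.x := by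
    unfold Fh
    ring
  rw [e1] at m3
  have hκ := cc.mono s hs s' hs' hss
  exact xcoef cc hs' (sub_le1 (rtK cc hs') ((rtK cc hs).trans hκ)) (sub_le1 (ryK cc hs') ((ryK cc hs).trans hκ))
    (by nlinarith) m3

/-- one step of the tilt -/
theorem inc_c1 {s s' : ℝ} (hs : s ∈ Sc) (hs' : s' ∈ Sc) (hss : s ≤ s') (h2 : w1 * s' ≤ 1) (h3 : w * s' ≤ 1) :
    f.c s' - f.c s ∈ Id S (w * s - w1 * s') := by
  have n0 := cc.nn s hs
  have n0' := cc.nn s' hs'
  have hw := cc.hw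
  have hw1 := cc.hw1
  have h3s : w * s ≤ 1 := (mul_le_mul_of_nonneg_left hss (by linarith)).trans h3
  have m1 := cc.frZ s hs
  have m2 := Id_anti (mul_le_mul_of_nonneg_left hss (show 0 ≤ w by linarith)) (cc.frZ s' hs')
  have m3 := (Id S (w * s)).sub_mem m1 m2
  have e1 : H.z - (f.z0 s + f.k0 s * H.t + f.k1 s * H.y + f.c s * H.R) -
      (H.z - (f.z0 s' + f.k0 s' * H.t + f.k1 s' * H.y + f.c s' * H.R)) =
      ((f.z0 s' - f.z0 s) + (f.c s' - f.c s) * f.r0 s' +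
        ((f.k0 s' - f.k0 s) + (f.c s' - f.c s) * f.rt s') * f.t0 s' +
        ((f.k1 s' - f.k1 s) + (f.c s' - f.c s) * f.ry s') * f.y0 s') +
      ((f.k0 s' - f.k0 s) + (f.c s' - f.c s) * f.rt s') * (H.t - f.t0 s') +
      ((f.k1 s' - f.k1 s) + (f.c s' - f.c s) * f.ry s') * (H.y - f.y0 s') +
      (f.c s' - f.c s) * (H.R - (f.r0 s' + f.rt s' * H.t + f.ry s' * H.y)) := by ring
  rw [e1] at m3
  have hκ := cc.mono s hs s' hs' hss
  have kc : dg (f.c s' - f.c s) 1 ≤ H.κ s' := sub_le1 (cK cc hs') ((cK cc hs).trans hκ)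
  have kz : dg (f.z0 s' - f.z0 s) 1 ≤ H.κ s' := sub_le1 (z0K cc hs') ((z0K cc hs).trans hκ)
  have k0 : dg (f.k0 s' - f.k0 s) 1 ≤ H.κ s' := sub_le1 (k0K cc hs') ((k0K cc hs).trans hκ)
  have k1 : dg (f.k1 s' - f.k1 s) 1 ≤ H.κ s' := sub_le1 (k1K cc hs') ((k1K cc hs).trans hκ)
  have k2 := add_le1 k0 (mul_le1 kc (rtK cc hs'))
  have k3 := add_le1 k1 (mul_le1 kc (ryK cc hs'))
  refine (Helper98.FR.lin_small3 (A := H.κ s') n0' (le1 cc hs' h2) n0' (le1 cc hs' h2) (by positivity) h2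
    (cc.ft s' hs').1 (cc.fy s' hs').1 (cc.frR s' hs')
    (add_le1 (add_le1 (add_le1 kz (mul_le1 kc (r0K cc hs'))) (mul_le1 k2 (t0K cc hs'))) (mul_le1 k3 (y0K cc hs')))
    k2 k3 kc ?_ h3s m3).2.2.1
  have e2 := full0 cc hs' h2
  have e3 : h H.M (H.κ s') ≤ h (dg (H.t - f.t0 s') 1 ⊔ dg (H.y - f.y0 s') 1 ⊔
      dg (H.R - (f.r0 s' + f.rt s' * H.t + f.ry s' * H.y)) 1) (H.κ s') := by
    apply h_mono'
    have a1 : dg H.t 1 ≤ dg (H.t - f.t0 s') 1 ⊔ dg (H.y - f.y0 s') 1 ⊔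
      dg (H.R - (f.r0 s' + f.rt s' * H.t + f.ry s' * H.y)) 1 ⊔ H.κ s' := by
      have e4 : H.t = (H.t - f.t0 s') + f.t0 s' := by ring
      conv_lhs => rw [e4]
      exact add_le1 ((le_sup_left.trans le_sup_left).trans le_sup_left) ((t0K cc hs').trans le_sup_right)
    have a2 : dg H.y 1 ≤ dg (H.t - f.t0 s') 1 ⊔ dg (H.y - f.y0 s') 1 ⊔
      dg (H.R - (f.r0 s' + f.rt s' * H.t + f.ry s' * H.y)) 1 ⊔ H.κ s' := by
      have e4 : H.y = (H.y - f.y0 s') + f.y0 s' := by ring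
      conv_lhs => rw [e4]
      exact add_le1 ((le_sup_right.trans le_sup_left).trans le_sup_left) ((y0K cc hs').trans le_sup_right)
    refine sup_le (sup_le a1 a2) ?_
    have e4 : H.R = (H.R - (f.r0 s' + f.rt s' * H.t + f.ry s' * H.y)) + (f.r0 s' + f.rt s' * H.t + f.ry s' * H.y) := by
      ring
    conv_lhs => rw [e4]
    refine add_le1 (le_sup_right.trans le_sup_left) (add_le1 (add_le1 ((r0K cc hs').trans le_sup_right)
      (mul_le1 ((rtK cc hs').trans le_sup_right) a1)) (mul_le1 ((ryK cc hs').trans le_sup_right) a2))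
  linarith

/-- increments of the tilt, from a chain of windows -/
theorem inc_c {σ : ℝ} (hσ : ∀ s ∈ Sc, s ≤ σ) (hd : Dns Sc σ) {s s' : ℝ} (hs : s ∈ Sc) (hs' : s' ∈ Sc) (hss : s ≤ s')
    (h2 : w1 * s' ≤ 1) (h3 : w * s' ≤ 1) : f.c s' - f.c s ∈ Id S ((w - w1) * s) := by
  have hw := cc.hw
  have hw1 := cc.hw1
  rcases le_total w w1 with hww | hww
  · exact mem_Id_nonpos (mul_nonpos_of_nonpos_of_nonneg (by linarith) (cc.nn s hs))
  have key : ∀ ε : ℝ, 0 < ε → ∀ n : ℕ, ∀ s ∈ Sc, s ≤ s' → s' - s ≤ n * ε →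
      f.c s' - f.c s ∈ Id S ((w - w1) * s - 2 * w1 * ε) := by
    intro ε hε n
    induction n with
    | zero =>
      intro s hs hss hn
      have e : s' = s := by
        rw [Nat.cast_zero, zero_mul] at hn
        linarith
      rw [e, sub_self]
      exact Ideal.zero_mem _
    | succ n ih =>
      intro s hs hss hn
      by_cases h4 : s' - s ≤ 2 * ε
      · refine Id_anti ?_ (inc_c1 cc hs hs' hss h2 h3)
        nlinarith
      · push Not at h4
        have n0 := cc.nn s hs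
        obtain ⟨s1, hs1, a1, a2⟩ := hd (s + ε) (s + 2 * ε) (by linarith) (by linarith) (by linarith [hσ s' hs'])
        have b1 : s1 ≤ s' := by linarith
        have b2 : s ≤ s1 := by linarith
        rw [Nat.cast_succ] at hn
        have m1 := ih s1 hs1 b1 (by linarith)
        have m2 := inc_c1 cc hs hs1 b2 ((mul_le_mul_of_nonneg_left b1 (by linarith)).trans h2)
          ((mul_le_mul_of_nonneg_left b1 (by linarith)).trans h3)
        have m1' := Id_anti (S := S) (show (w - w1) * s - 2 * w1 * ε ≤ (w - w1) * s1 - 2 * w1 * ε by nlinarith) m1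
        have m2' := Id_anti (S := S) (show (w - w1) * s - 2 * w1 * ε ≤ w * s - w1 * s1 by nlinarith) m2
        have m3 := (Id S ((w - w1) * s - 2 * w1 * ε)).add_mem m1' m2'
        have e1 : f.c s' - f.c s1 + (f.c s1 - f.c s) = f.c s' - f.c s := by ring
        rwa [e1] at m3
  apply mem_Id_of_forall
  intro ε hε
  have h5 : 0 < ε / (2 * w1) := by positivity
  obtain ⟨n, hn⟩ := exists_nat_ge ((s' - s) / (ε / (2 * w1)))
  rw [div_le_iff₀ h5] at hn
  have m1 := key _ h5 n s hs hss hn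
  have e1 : 2 * w1 * (ε / (2 * w1)) = ε := by field_simp
  rwa [e1] at m1

end

end Pool.Agent.Helper90.NBR
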