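import Pool.Agent.Helper90.NBR.Cnt

/-! No vertical bush at a window: the relative velocities are functions of the visible digits. -/

set_option autoImplicit false

namespace Pool.Agent.Helper90.NBR

open Finset Filter Topology Pool.Agent.Helper69.RK Pool.Agent.Helper31.EC Pool.Agent.Helper82.TP
open Pool.Agent.Helper79.NF Pool.Agent.Helper31.NSB Pool.Agent.Helper90.BLD

noncomputable section

open Sp QS

variable {S : Sp}

variable {H : RD S} {f : FR S} {w1 w : ℝ} {Sc : Set ℝ}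

theorem a_q : dg H.a 1 ≤ H.q ⊔ dg H.x 1 := by
  unfold HD0.a
  exact sub_le1 (le_sup_right.trans le_sup_left) (mul_le1 (le_sup_left.trans le_sup_left) le_sup_right)

variable (cc : C0 H f w1 w Sc)

include cc

/-- the velocity of `R` -/
theorem red_F (h1 : 1 < w1) {σ : ℝ} (hd : Dns Sc σ) {s : ℝ} (hs : s ∈ Sc) {N D : ℝ}
    (hF : dg H.F ((w1 - 1) * s + N) ≤ H.κ s ⊔ (dg H.a 1 ⊔ dg H.x 1 ⊔ dg H.t 1)) (hN : 0 < N) (hND : N ≤ D)
    (h5 : N < (w1 - 1) * D) (h7 : s + D < σ) (h9 : w1 * (s + D) ≤ 1) :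
    dg (Fh H f s) ((w1 - 1) * s + N) ≤ H.κ s ⊔ (dg H.t (s + D) ⊔ dg H.y (s + D) ⊔ dg H.x D) := by
  have n0 := cc.nn s hs
  have hD0 : 0 < D := lt_of_lt_of_le hN hND
  have h11 : 0 < w1 - 1 := by linarith
  have hsD : s + D ≤ 1 := by nlinarith
  have hD1 : D ≤ 1 := by linarith
  have hp : (w1 - 1) * s + N ≤ 1 := by nlinarith
  have h10 : N / (w1 - 1) < D := by rw [div_lt_iff₀ h11]; linarith
  obtain ⟨s', hs', a1, a2⟩ := hd (s + N / (w1 - 1)) (s + D) (by positivity) (by linarith) h7.le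
  have hss : s ≤ s' := by
    have : 0 < N / (w1 - 1) := by positivity
    linarith
  have h2' : w1 * s' ≤ 1 := le_trans (by nlinarith) h9
  have hb : (w1 - 1) * s + N ≤ (w1 - 1) * s' := by
    have e1 : (w1 - 1) * (s + N / (w1 - 1)) = (w1 - 1) * s + N := by field_simp
    rw [← e1]
    exact mul_le_mul_of_nonneg_left a1.le h11.le
  have hκ := cc.mono s hs s' hs' hss
  obtain ⟨m1, m2⟩ := inc_R cc hs hs' hss h2'
  refine le_of_markov (A := H.κ s') (B := H.q ⊔ dg H.x 1) ?_ ?_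
    (ind_q cc hs hs' hss a2.le h2' hsD hD1)
  · -- through the later window
    have e1 : Fh H f s - ((f.rt s' - f.rt s) + (f.ry s' - f.ry s) * H.x) = Fh H f s' := by
      unfold Fh
      ring
    have m3 := Fh_mem cc hs' (le1 cc hs' h2') h2'
    rw [← e1] at m3
    refine dg_le_of_sub m3 hb hp ?_
    refine dg_add_le' _ _ hp ?_ ?_
    · exact ((dg_mono _ hp).trans (sub_le1 (rtK cc hs') ((rtK cc hs).trans hκ))).trans le_sup_left
    · rw [mul_comm]
      have b1 := dg_mul_small H.x (f.ry s' - f.ry s) (a := (w1 - 1) * s) (b := N) hp (by linarith) (by nlinarith) m2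
      refine b1.trans (sup_le ?_ ?_)
      · exact (dg_mono _ hND).trans ((le_sup_right.trans le_sup_right).trans le_sup_right)
      · exact ((dg_mono _ hp).trans (sub_le1 (ryK cc hs') ((ryK cc hs).trans hκ))).trans le_sup_left
  · -- from the base line
    unfold Fh
    have k1 : H.κ s ≤ H.q ⊔ dg H.x 1 ⊔ (H.κ s ⊔ (dg H.t (s + D) ⊔ dg H.y (s + D) ⊔ dg H.x D)) :=
      le_sup_left.trans le_sup_right
    refine dg_sub_le' _ _ hp (hF.trans (sup_le k1 (sup_le (sup_le (a_q.trans le_sup_left)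
      (le_sup_right.trans le_sup_left)) ((le_sup_left.trans le_sup_left).trans le_sup_left)))) ?_
    refine (dg_mono _ hp).trans (add_le1 ((rtK cc hs).trans k1) (mul_le1 ((ryK cc hs).trans k1)
      (le_sup_right.trans le_sup_left)))

/-- the velocity of `z`, through a later window -/
theorem red_v (h1 : 1 < w1) (hw : 1 < w) {σ : ℝ} (hσ : ∀ s ∈ Sc, s ≤ σ) (hd : Dns Sc σ) {s s' : ℝ} (hs : s ∈ Sc)
    (hs' : s' ∈ Sc) (hss : s ≤ s') {N : ℝ} (hN0 : 0 < N) (hN1 : N ≤ 1) (h2 : w1 * s' ≤ 1) (h3 : w * s' ≤ 1)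
    (hb : (w - 1) * s + N ≤ (w - 1) * s') (hp : (w1 - 1) * s + N ≤ 1) {C : S.L}
    (hF : dg (Fh H f s) ((w1 - 1) * s + N) ≤ C) (hκ' : H.κ s' ≤ C) (hx : dg H.x N ≤ C) :
    dg (vh H f s) ((w - 1) * s + N) ≤ C := by
  have n0 := cc.nn s hs
  have n0' := cc.nn s' hs'
  have hκ := cc.mono s hs s' hs' hss
  have hpw : (w - 1) * s + N ≤ 1 := by nlinarith
  have hws : (w - 1) * s ≤ 1 := by linarith
  have h2s : w1 * s ≤ 1 := (mul_le_mul_of_nonneg_left hss (by linarith)).trans h2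
  have h3s : w * s ≤ 1 := (mul_le_mul_of_nonneg_left hss (by linarith)).trans h3
  have hc := inc_c cc hσ hd hs hs' hss h2 h3
  have kc : dg (f.c s' - f.c s) 1 ≤ H.κ s' := sub_le1 (cK cc hs') ((cK cc hs).trans hκ)
  have k0 : dg (f.k0 s' - f.k0 s) 1 ≤ H.κ s' := sub_le1 (k0K cc hs') ((k0K cc hs).trans hκ)
  have k1 : dg (f.k1 s' - f.k1 s) 1 ≤ H.κ s' := sub_le1 (k1K cc hs') ((k1K cc hs).trans hκ)
  have kA0 := add_le1 k0 (mul_le1 kc ((rtK cc hs).trans hκ))
  have kA1 := add_le1 k1 (mul_le1 kc ((ryK cc hs).trans hκ))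
  have mF := Fh_mem cc hs (le1 cc hs h2s) h2s
  have e1 : vh H f s - vh H f s' - (f.c s' - f.c s) * Fh H f s =
      ((f.k0 s' - f.k0 s) + (f.c s' - f.c s) * f.rt s) + ((f.k1 s' - f.k1 s) + (f.c s' - f.c s) * f.ry s) * H.x := by
    unfold Fh vh
    ring
  -- the product with the increment of the tilt is small
  have mcF : (f.c s' - f.c s) * Fh H f s ∈ Id S ((w - 1) * s) := by
    rcases le_total w w1 with hww | hww
    · exact Ideal.mul_mem_left _ _ (Id_anti (by nlinarith) mF)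
    · have a1 := Helper80.MX.Id_mul (by nlinarith) (by nlinarith) hc mF
      have a2 : (w - w1) * s + (w1 - 1) * s = (w - 1) * s := by ring
      rwa [a2] at a1
  have mA := (Id S ((w - 1) * s)).sub_mem ((Id S ((w - 1) * s)).sub_mem (vh_mem cc hs (le1 cc hs h2s) h3s)
    (Id_anti (mul_le_mul_of_nonneg_left hss (by linarith)) (vh_mem cc hs' (le1 cc hs' h2) h3))) mcF
  rw [e1] at mA
  obtain ⟨-, m2⟩ := xcoef cc hs' kA0 kA1 hws mA
  have e2 : vh H f s - (((f.k0 s' - f.k0 s) + (f.c s' - f.c s) * f.rt s) +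
      ((f.k1 s' - f.k1 s) + (f.c s' - f.c s) * f.ry s) * H.x + (f.c s' - f.c s) * Fh H f s) = vh H f s' := by
    rw [← e1]
    ring
  have m3 := vh_mem cc hs' (le1 cc hs' h2) h3
  rw [← e2] at m3
  refine dg_le_of_sub m3 hb hpw ?_
  refine dg_add_le' _ _ hpw (dg_add_le' _ _ hpw ?_ ?_) ?_
  · exact ((dg_mono _ hpw).trans kA0).trans hκ'
  · rw [mul_comm]
    refine (dg_mul_small H.x _ hpw hN1 hws m2).trans (sup_le hx ?_)
    exact ((dg_mono _ hpw).trans kA1).trans hκ'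
  · rcases le_total w w1 with hww | hww
    · have a1 : (w - 1) * s + N ≤ (w1 - 1) * s + N := by nlinarith
      exact dg_mul_le' _ _ hpw (((dg_mono _ hpw).trans kc).trans hκ') ((dg_mono _ a1).trans hF)
    · have a1 : (w - 1) * s + N = (w - w1) * s + ((w1 - 1) * s + N) := by ring
      have a2 := dg_mul_small (Fh H f s) (f.c s' - f.c s) (a := (w - w1) * s) (b := (w1 - 1) * s + N)
        (by linarith) hp (by nlinarith) hc
      rw [← a1] at a2
      rw [mul_comm]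
      exact a2.trans (sup_le hF (((dg_mono _ hpw).trans kc).trans hκ'))

/-- REDUCTION OF THE SLOPES TO THE VISIBLE DIGITS -/
theorem nbr (h1 : 1 < w1) (hw : 1 < w) {σ : ℝ} (hσ : ∀ s ∈ Sc, s ≤ σ) (hd : Dns Sc σ) {s : ℝ} (hs : s ∈ Sc) {N : ℝ}
    (hN : NBraw H f w1 w s N) {N' D : ℝ} (h0 : 0 < N') (hNN : N' ≤ N) (hND : N' ≤ D) (h5 : N' < (w1 - 1) * D)
    (h6 : w1 * N' < (w - 1) * D) (h7 : s + D < σ) (h8 : w * (s + D) ≤ 1) (h9 : w1 * (s + D) ≤ 1) :
    NBred H f w1 w s N' D := by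
  have n0 := cc.nn s hs
  have hD0 : 0 < D := lt_of_lt_of_le h0 hND
  have h11 : 0 < w1 - 1 := by linarith
  have h12 : 0 < w - 1 := by linarith
  have hw10 : 0 < w1 := by linarith
  have hsD : s + D ≤ 1 := by nlinarith
  have hD1 : D ≤ 1 := by linarith
  have hRD : w1 * s + D ≤ 1 := by nlinarith
  have hp : (w1 - 1) * s + N' ≤ 1 := by nlinarith
  have h10 : N' < (w - 1) * D := by nlinarith
  have hpw : (w - 1) * s + N' ≤ 1 := by nlinarith
  have hF : dg (Fh H f s) ((w1 - 1) * s + N') ≤ H.κ s ⊔ (dg H.t (s + D) ⊔ dg H.y (s + D) ⊔ dg H.x D) :=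
    red_F cc h1 hd hs ((dg_mono _ (by linarith)).trans hN.F) h0 hND h5 h7 h9
  refine ⟨hF, ?_, ?_⟩
  · -- velocity of `z`
    have b1 : N' / (w - 1) < D / w1 := by
      rw [div_lt_div_iff₀ h12 hw10]
      linarith
    have b2 : D / w1 ≤ D := div_le_self hD0.le h1.le
    obtain ⟨s', hs', a1, a2⟩ := hd (s + N' / (w - 1)) (s + D / w1) (by positivity) (by linarith) (by linarith)
    have hss : s ≤ s' := by
      have : 0 < N' / (w - 1) := by positivity
      linarith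
    have a3 : w1 * s' ≤ w1 * s + D := by
      have e1 : w1 * (s + D / w1) = w1 * s + D := by field_simp
      rw [← e1]
      exact mul_le_mul_of_nonneg_left a2.le hw10.le
    have h2' : w1 * s' ≤ 1 := a3.trans hRD
    have h3' : w * s' ≤ 1 := (mul_le_mul_of_nonneg_left (a2.le.trans (by linarith)) (by linarith)).trans h8
    have hb : (w - 1) * s + N' ≤ (w - 1) * s' := by
      have e1 : (w - 1) * (s + N' / (w - 1)) = (w - 1) * s + N' := by field_simp
      rw [← e1]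
      exact mul_le_mul_of_nonneg_left a1.le h12.le
    refine le_of_markov (A := H.κ s') (B := H.M ⊔ dg H.x 1) ?_ ?_ (ind_M cc hs hs' hss h2' hD0.le a3 hRD)
    · refine red_v cc h1 hw hσ hd hs hs' hss h0 (hND.trans hD1) h2' h3' hb hp ?_ le_sup_left ?_
      · refine hF.trans (le_trans ?_ le_sup_right)
        exact sup_le le_sup_left (le_trans (sup_le_sup_right le_sup_left _) le_sup_right)
      · exact (dg_mono _ hND).trans ((le_sup_right.trans le_sup_right).trans le_sup_right)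
    · have k0 : H.κ s ≤ H.M ⊔ dg H.x 1 ⊔ (H.κ s ⊔ (dg H.t (s + D) ⊔ dg H.y (s + D) ⊔ dg (Rh H f s) (w1 * s + D) ⊔
          dg H.x D)) := le_sup_left.trans le_sup_right
      have kM : H.M ≤ H.M ⊔ dg H.x 1 ⊔ (H.κ s ⊔ (dg H.t (s + D) ⊔ dg H.y (s + D) ⊔ dg (Rh H f s) (w1 * s + D) ⊔
          dg H.x D)) := le_sup_left.trans le_sup_left
      have kx : dg H.x 1 ≤ H.M ⊔ dg H.x 1 ⊔ (H.κ s ⊔ (dg H.t (s + D) ⊔ dg H.y (s + D) ⊔
          dg (Rh H f s) (w1 * s + D) ⊔ dg H.x D)) := le_sup_right.trans le_sup_left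
      have ka : dg H.a 1 ≤ H.M ⊔ dg H.x 1 ⊔ (H.κ s ⊔ (dg H.t (s + D) ⊔ dg H.y (s + D) ⊔
          dg (Rh H f s) (w1 * s + D) ⊔ dg H.x D)) := a_q.trans (sup_le (le_sup_left.trans kM) kx)
      have e1 : vh H f s = (H.v - f.c s * H.F) - (f.k0 s + f.k1 s * H.x) := by
        unfold vh
        ring
      rw [e1]
      refine dg_sub_le' _ _ hpw ?_ ?_
      · refine ((dg_mono _ (by linarith)).trans hN.v).trans (sup_le k0 (sup_le (sup_le (sup_le ka kx) ?_) ?_))
        · exact (le_sup_left.trans le_sup_left).trans kM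
        · exact le_sup_right.trans kM
      · exact (dg_mono _ hpw).trans (add_le1 ((k0K cc hs).trans k0) (mul_le1 ((k1K cc hs).trans k0) kx))
  · -- equal weights
    intro hww
    have b1 : N' / (w - 1) < D := by
      rw [div_lt_iff₀ h12]
      linarith
    obtain ⟨s', hs', a1, a2⟩ := hd (s + N' / (w - 1)) (s + D) (by positivity) (by linarith) h7.le
    have hss : s ≤ s' := by
      have : 0 < N' / (w - 1) := by positivity
      linarith
    have h2' : w1 * s' ≤ 1 := (mul_le_mul_of_nonneg_left a2.le hw10.le).trans h9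
    have h3' : w * s' ≤ 1 := (mul_le_mul_of_nonneg_left a2.le (by linarith)).trans h8
    have hb : (w - 1) * s + N' ≤ (w - 1) * s' := by
      have e1 : (w - 1) * (s + N' / (w - 1)) = (w - 1) * s + N' := by field_simp
      rw [← e1]
      exact mul_le_mul_of_nonneg_left a1.le h12.le
    refine le_of_markov (A := H.κ s') (B := H.q ⊔ dg H.x 1) ?_ ?_ (ind_q cc hs hs' hss a2.le h2' hsD hD1)
    · refine red_v cc h1 hw hσ hd hs hs' hss h0 (hND.trans hD1) h2' h3' hb hp (hF.trans le_sup_right) le_sup_left ?_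
      exact (dg_mono _ hND).trans ((le_sup_right.trans le_sup_right).trans le_sup_right)
    · have k0 : H.κ s ≤ H.q ⊔ dg H.x 1 ⊔ (H.κ s ⊔ (dg H.t (s + D) ⊔ dg H.y (s + D) ⊔ dg H.x D)) :=
        le_sup_left.trans le_sup_right
      have kq : H.q ≤ H.q ⊔ dg H.x 1 ⊔ (H.κ s ⊔ (dg H.t (s + D) ⊔ dg H.y (s + D) ⊔ dg H.x D)) :=
        le_sup_left.trans le_sup_left
      have kx : dg H.x 1 ≤ H.q ⊔ dg H.x 1 ⊔ (H.κ s ⊔ (dg H.t (s + D) ⊔ dg H.y (s + D) ⊔ dg H.x D)) :=
        le_sup_right.trans le_sup_left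
      have ka : dg H.a 1 ≤ H.q ⊔ dg H.x 1 ⊔ (H.κ s ⊔ (dg H.t (s + D) ⊔ dg H.y (s + D) ⊔ dg H.x D)) :=
        a_q.trans (sup_le kq kx)
      have e1 : vh H f s = (H.v - f.c s * H.F) - (f.k0 s + f.k1 s * H.x) := by
        unfold vh
        ring
      rw [e1]
      refine dg_sub_le' _ _ hpw ?_ ?_
      · refine ((dg_mono _ (by linarith)).trans (hN.v1 hww)).trans (sup_le k0 (sup_le (sup_le ka kx) ?_))
        exact le_sup_left.trans kq
      · exact (dg_mono _ hpw).trans (add_le1 ((k0K cc hs).trans k0) (mul_le1 ((k1K cc hs).trans k0) kx))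

omit cc in
/-- row B_NBR -/
theorem st_nbr : ST_NBR :=
  fun _ _ _ _ _ _ _ _ cc h1 hw _ hσ hd _ hs _ hN _ _ h0 hNN hND h5 h6 h7 h8 h9 =>
    nbr cc.toC0 h1 hw hσ hd hs hN h0 hNN hND h5 h6 h7 h8 h9

end

end Pool.Agent.Helper90.NBR
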