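import Pool.Agent.Helper31.NSB.St
import Pool.Agent.Helper98.FR.Form
import Pool.Agent.Helper90.BLD.Rich

/-! Case B, the corner over a label: velocities relative to the frames of the labels, increments of the frames between
two windows. -/

set_option autoImplicit false

namespace Pool.Agent.Helper90.NBR

open Finset Filter Topology Pool.Agent.Helper69.RK Pool.Agent.Helper31.EC Pool.Agent.Helper82.TP
open Pool.Agent.Helper79.NF Pool.Agent.Helper31.NSB Pool.Agent.Helper90.BLD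

noncomputable section

open Sp QS

variable {S : Sp}

theorem add_le1 {f g : QS S} {A : S.L} (hf : dg f 1 ≤ A) (hg : dg g 1 ≤ A) : dg (f + g) 1 ≤ A :=
  dg_add_le' f g le_rfl hf hg

theorem sub_le1 {f g : QS S} {A : S.L} (hf : dg f 1 ≤ A) (hg : dg g 1 ≤ A) : dg (f - g) 1 ≤ A :=
  dg_sub_le' f g le_rfl hf hg

theorem mul_le1 {f g : QS S} {A : S.L} (hf : dg f 1 ≤ A) (hg : dg g 1 ≤ A) : dg (f * g) 1 ≤ A :=
  dg_mul_le' f g le_rfl hf hg

section
variable {L : Type*} [PM L]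

theorem h_mono' {A A' B : L} (hA : A ≤ A' ⊔ B) : h A B ≤ h A' B := by
  have e1 := h_mono (B := B) hA
  rwa [h_sup_right_of_le le_rfl] at e1

end

variable {H : RD S} {f : FR S} {w1 w : ℝ} {Sc : Set ℝ} (cc : C0 H f w1 w Sc)

include cc

section known
variable {s : ℝ} (hs : s ∈ Sc)
include hs

theorem t0K : dg (f.t0 s) 1 ≤ H.κ s := (cc.lt s hs).1.dg_le (cc.bdd s hs) le_rfl
theorem y0K : dg (f.y0 s) 1 ≤ H.κ s := (cc.lt s hs).2.dg_le (cc.bdd s hs) le_rfl
theorem r0K : dg (f.r0 s) 1 ≤ H.κ s := (cc.lr s hs).1.dg_le (cc.bdd s hs) le_rfl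
theorem rtK : dg (f.rt s) 1 ≤ H.κ s := (cc.lr s hs).2.1.dg_le (cc.bdd s hs) le_rfl
theorem ryK : dg (f.ry s) 1 ≤ H.κ s := (cc.lr s hs).2.2.dg_le (cc.bdd s hs) le_rfl
theorem z0K : dg (f.z0 s) 1 ≤ H.κ s := (cc.lz s hs).1.dg_le (cc.bdd s hs) le_rfl
theorem k0K : dg (f.k0 s) 1 ≤ H.κ s := (cc.lz s hs).2.1.dg_le (cc.bdd s hs) le_rfl
theorem k1K : dg (f.k1 s) 1 ≤ H.κ s := (cc.lz s hs).2.2.1.dg_le (cc.bdd s hs) le_rfl
theorem cK : dg (f.c s) 1 ≤ H.κ s := (cc.lz s hs).2.2.2.dg_le (cc.bdd s hs) le_rfl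

/-- the first digits of `t` and `y` are known to the label -/
theorem tsK (h1 : s ≤ 1) : dg H.t s ≤ H.κ s := by
  rw [dg_eq_of_sub_mem (cc.ft s hs).1 le_rfl h1]
  exact (dg_mono _ h1).trans (t0K cc hs)

theorem ysK (h1 : s ≤ 1) : dg H.y s ≤ H.κ s := by
  rw [dg_eq_of_sub_mem (cc.fy s hs).1 le_rfl h1]
  exact (dg_mono _ h1).trans (y0K cc hs)

/-- `t` is real beyond its cell given the line and the label -/
theorem t_real (h1 : s ≤ 1) : 1 - s ≤ h (dg (H.t - f.t0 s) 1) (H.κ s ⊔ H.L) := by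
  have e1 := h_chain (dg H.t s) (dg H.t 1) H.L
  rw [sup_eq_right.mpr (dg_mono H.t h1), cc.time] at e1
  have e2 : h (dg H.t s) H.L ≤ s := (h_le_H _ _).trans (H_dg_le H.t (cc.nn s hs))
  have e3 := cc.leakA s hs
  rw [I_zero_iff_h'] at e3
  have e4 : h (dg H.t 1) (H.κ s ⊔ (H.L ⊔ dg H.t s)) ≤ h (dg H.t 1) (H.κ s ⊔ H.L) :=
    h_anti (sup_le_sup_left le_sup_left _)
  have e5 : h (dg H.t 1) (H.κ s ⊔ H.L) ≤ h (dg (H.t - f.t0 s) 1) (H.κ s ⊔ H.L) := by
    apply h_mono'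
    have e6 : H.t = (H.t - f.t0 s) + f.t0 s := by ring
    conv_lhs => rw [e6]
    exact (dg_add_le _ _ le_rfl).trans (sup_le le_sup_left ((t0K cc hs).trans (le_sup_left.trans le_sup_right)))
  rw [sup_comm H.L (dg H.t s)] at e3 e4
  linarith

/-- coefficients of a small function which is linear in `t` -/
theorem vel {α β : QS S} {b : ℝ} (hα : dg α 1 ≤ H.κ s ⊔ H.L) (hβ : dg β 1 ≤ H.κ s ⊔ H.L) (h1 : s ≤ 1) (hb : b ≤ 1)
    (hm : α + β * H.t ∈ Id S b) : β ∈ Id S (b - s) := by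
  have e1 : α + β * H.t = (α + β * f.t0 s) + β * (H.t - f.t0 s) := by ring
  rw [e1] at hm
  have hA : dg (α + β * f.t0 s) 1 ≤ H.κ s ⊔ H.L := add_le1 hα (mul_le1 hβ ((t0K cc hs).trans le_sup_left))
  exact (Helper98.FR.lin_small (cc.nn s hs) h1 (cc.ft s hs).1
    ((t_real cc hs h1).trans (h_anti (sup_le hA hβ))) hb hm).1

omit cc hs in
theorem xL : dg H.x 1 ≤ H.L := le_sup_left.trans (le_sup_left.trans le_sup_left)
omit cc hs in
theorem aL : dg H.a 1 ≤ H.L := le_sup_right.trans (le_sup_left.trans le_sup_left)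
omit cc hs in
theorem FL : dg H.F 1 ≤ H.L := le_sup_left.trans (le_sup_right.trans le_sup_left)
omit cc hs in
theorem cRL : dg H.cR 1 ≤ H.L := le_sup_right.trans (le_sup_right.trans le_sup_left)
omit cc hs in
theorem vL : dg H.v 1 ≤ H.L := le_sup_left.trans le_sup_right
omit cc hs in
theorem azL : dg H.az 1 ≤ H.L := le_sup_right.trans le_sup_right

/-- the velocity of `R` relative to the frame -/
theorem Fh_mem (h1 : s ≤ 1) (h2 : w1 * s ≤ 1) : Fh H f s ∈ Id S ((w1 - 1) * s) := by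
  have e1 : H.R - (f.r0 s + f.rt s * H.t + f.ry s * H.y) =
      (H.cR - f.r0 s - f.ry s * H.a) + Fh H f s * H.t := by
    unfold Fh HD0.cR HD0.a
    ring
  have hm := cc.frR s hs
  rw [e1] at hm
  have e2 := vel cc hs (sub_le1 (sub_le1 (cRL.trans le_sup_right) ((r0K cc hs).trans le_sup_left))
    (mul_le1 ((ryK cc hs).trans le_sup_left) (aL.trans le_sup_right)))
    (sub_le1 (FL.trans le_sup_right) (add_le1 ((rtK cc hs).trans le_sup_left)
      (mul_le1 ((ryK cc hs).trans le_sup_left) (xL.trans le_sup_right)))) h1 h2 hm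
  have e3 : w1 * s - s = (w1 - 1) * s := by ring
  rwa [e3] at e2

/-- the velocity of `z` relative to the frame -/
theorem vh_mem (h1 : s ≤ 1) (h2 : w * s ≤ 1) : vh H f s ∈ Id S ((w - 1) * s) := by
  have e1 : H.z - (f.z0 s + f.k0 s * H.t + f.k1 s * H.y + f.c s * H.R) =
      (H.az - f.z0 s - f.k1 s * H.a - f.c s * H.cR) + vh H f s * H.t := by
    unfold vh HD0.cR HD0.a HD0.az
    ring
  have hm := cc.frZ s hs
  rw [e1] at hm
  have e2 := vel cc hs (sub_le1 (sub_le1 (sub_le1 (azL.trans le_sup_right) ((z0K cc hs).trans le_sup_left))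
    (mul_le1 ((k1K cc hs).trans le_sup_left) (aL.trans le_sup_right)))
    (mul_le1 ((cK cc hs).trans le_sup_left) (cRL.trans le_sup_right)))
    (sub_le1 (vL.trans le_sup_right) (add_le1 (add_le1 ((k0K cc hs).trans le_sup_left)
      (mul_le1 ((k1K cc hs).trans le_sup_left) (xL.trans le_sup_right)))
      (mul_le1 ((cK cc hs).trans le_sup_left) (FL.trans le_sup_right)))) h1 h2 hm
  have e3 : w * s - s = (w - 1) * s := by ring
  rwa [e3] at e2

/-- the direction is rich over the point and the label -/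
theorem xrich : Rch H.x (H.κ s ⊔ H.B) := by
  have h1 : Rch H.x H.B := by
    obtain ⟨g, hg, hr⟩ := cc.rich
    exact fun T p E hE r h0 h1 => lt_of_lt_of_le (mul_pos hg h0) (hr T p E hE r h0.le h1)
  apply h1.of_I
  have e1 := cc.T1 s hs
  rw [sup_comm] at e1
  have e2 := (I_decomp e1).2
  rwa [sup_bot_eq] at e2

/-- small linear functions of the direction with coefficients known to the label -/
theorem xcoef {α β : QS S} {b : ℝ} (hα : dg α 1 ≤ H.κ s) (hβ : dg β 1 ≤ H.κ s) (hb : b ≤ 1)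
    (hm : α + β * H.x ∈ Id S b) : α ∈ Id S b ∧ β ∈ Id S b :=
  ⟨(xrich cc hs).coef0 (hα.trans le_sup_left) (hβ.trans le_sup_left) hb hm,
    (xrich cc hs).coef (hα.trans le_sup_left) (hβ.trans le_sup_left) hb hm⟩

end known

end

end Pool.Agent.Helper90.NBR
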